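import Mathlib
import Pool.Agent.LLX.Main
import Pool.Agent.LLC.Few

/-!
# Few slow points if the characteristic polynomial has no slow factor

Let `E` be an algebraically closed field which is algebraic over `ℚ`, let `X` be a smooth
irreducible closed subset of dimension `d` of a product over `i` of projective spaces over `E`, and
let `f` be a self map of `X` which is given locally by forms (`LocallyByForms`), and such that for
every `i` the pull back by `f` of the class `e_i` of the `i`-th `O(1)` is numerically equivalent to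
`∑ j, A i j e_j` (`ActsBy`).

Let `δ` be a real number such that every irreducible factor over `ℚ` of the characteristic
polynomial of `A` has a complex root of modulus at least `δ`; for instance `δ` is the first
dynamical degree of `f` (the spectral radius of `f^*` on `N^1(X)`), and the characteristic
polynomial of `f^*` is irreducible. The points `x` with `a_f(x) < δ` are called slow.

For every `D` there is `C` such that there are at most `C (1 + κ + log (2 + h)) ^ d` slow points
`x` in `X` of degree at most `D` over `ℚ`, of logarithmic height at most `h`, and such that the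
tangent space of `X` at `x` has height at most `(d + 1) h(x) + κ`, or a fixed section of a multiple
`- r₀ K` of the anticanonical class (given by the forms `Gc`, see `AntiCan`; for instance `Gc = 0`)
is not zero at `x`. So if a multiple of the anticanonical class is effective, there are outside its
base locus at most `C (log (2 + h)) ^ d` slow points of degree at most `D` and height at most `h`.
(The iterates of a point `x` with `1 < a_f(x) < δ` are already about `log h` such points.)

Proof: determinant method for jets at the slow points of the graphs of the iterates of `f`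
(`Pool/Agent/LLX`) shows that all but so few of the slow points lie on subvarieties `Z` on which
an iterate of `f` has small degree; such a `Z` contains a curve through the point on which all the
iterates have small degree (`Pool/Agent/LLC`, heights over the function field of the curve and a
Liouville inequality), and the degrees of the `e_i` on this curve are a nonzero integer vector `v`
such that `A ^ m v` grows slowly, which is excluded by the assumption on the characteristic
polynomial (`LLC/Irr.lean`).
-/

set_option autoImplicit false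

open scoped LinearAlgebra.Projectivization
open MvPolynomial Pool.Agent.Helper90.KSC Pool.Agent.Helper63.SAND Pool.Agent.Helper63.WH
  Pool.Agent.PW Pool.Agent.LLX Pool.Agent.LLC

namespace Pool.Agent.Results.MP_0e7dfd_ag.FewSlowPoints

theorem result {E : Type*} [Field E] [CharZero E] [Algebra.IsAlgebraic ℚ E] [IsAlgClosed E]
    {ι : Type*} [Fintype ι] [DecidableEq ι] {N : ι → ℕ} (X : Set (PPt E N)) (hX : ZClosed X)
    (hXi : Irred X) (d e₀ : ℕ) (hdeg : HasDegree X d e₀) (hsm : SmoothDim X d)
    (f : PPt E N → PPt E N) (hf : Set.MapsTo f X X) (hloc : LocallyByForms X f)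
    (A : Matrix ι ι ℤ) (hA : ActsBy X f A) (δ : ℝ)
    (hirr : ∀ g : Polynomial ℚ, Irreducible g → g ∣ A.charpoly.map (Int.castRingHom ℚ) →
      ∃ z : ℂ, Polynomial.aeval z g = 0 ∧ δ ≤ ‖z‖)
    (r₀ m₁ : ℕ) (hr₀ : 1 ≤ r₀)
    (Gc : (Fin (d + 1) → SIx N) × (Fin m₁ → SIx N) → MvPolynomial (SIx N) E)
    (hGc : AntiCan (fun x : X => seg (x : PPt E N)) d r₀ m₁ Gc) (D : ℕ) :
    ∃ C : ℕ, ∀ h κ : ℝ, 0 ≤ h → 0 ≤ κ →
      ∃ Ex : Finset (PPt E N), (Ex.card : ℝ) ≤ C * (1 + κ + Real.log (2 + h)) ^ d ∧
        ∀ (x : PPt E N) (hx : x ∈ X), DegLE D x → absTotal x ≤ h →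
          (∃ a < δ, AbsArithDegree f x a) →
          (TanHt X d κ ⟨x, hx⟩ ∨ ∃ I, eval (seg x) (Gc I) ≠ 0) → x ∈ Ex := by
  obtain ⟨κ₀, hκ₀, h0⟩ := anti_tanHt X d hsm r₀ m₁ hr₀ Gc hGc
  obtain ⟨C, hC⟩ := few_slow X hX hXi d e₀ hdeg hsm f hf hloc A hA δ hirr D
  refine ⟨⌈(C : ℝ) * (1 + κ₀) ^ d⌉₊, fun h κ hh hκ => ?_⟩
  obtain ⟨Ex, h1, h2⟩ := hC h (max κ κ₀) hh (le_max_of_le_left hκ)
  refine ⟨Ex, h1.trans ?_, fun x hx hD hxh ha hT => h2 x hx hD hxh ha ?_⟩
  · have hlog : 0 ≤ Real.log (2 + h) := Real.log_nonneg (by linarith)
    have hm : 1 + max κ κ₀ + Real.log (2 + h) ≤ (1 + κ₀) * (1 + κ + Real.log (2 + h)) := by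
      have h3 : max κ κ₀ ≤ κ + κ₀ := max_le (by linarith) (by linarith)
      nlinarith [mul_nonneg hκ₀ hκ, mul_nonneg hκ₀ hlog]
    have h4 : 0 ≤ 1 + max κ κ₀ + Real.log (2 + h) := by
      have := le_max_left κ κ₀
      linarith
    calc (C : ℝ) * (1 + max κ κ₀ + Real.log (2 + h)) ^ d
        ≤ C * ((1 + κ₀) * (1 + κ + Real.log (2 + h))) ^ d :=
          mul_le_mul_of_nonneg_left (pow_le_pow_left₀ h4 hm d) (Nat.cast_nonneg _)
      _ = C * (1 + κ₀) ^ d * (1 + κ + Real.log (2 + h)) ^ d := by rw [mul_pow, mul_assoc]
      _ ≤ _ := mul_le_mul_of_nonneg_right (Nat.le_ceil _) (by positivity)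
  · rcases hT with hT | hT
    · obtain ⟨v, hv1, hv2⟩ := hT
      exact ⟨v, hv1, hv2.trans (by linarith [le_max_left κ κ₀])⟩
    · obtain ⟨v, hv1, hv2⟩ := h0 ⟨x, hx⟩ hT
      exact ⟨v, hv1, hv2.trans (by linarith [le_max_right κ κ₀])⟩

end Pool.Agent.Results.MP_0e7dfd_ag.FewSlowPoints
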