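import Mathlib
import Pool.Agent.PBL.FinalAll
import Pool.Agent.PBL.One

/-!
# Arithmetic degrees on projective bundles over an arbitrary base

Let `E` be an algebraically closed field which is algebraic over `ℚ`, let `W` be a closed irreducible
subset of projective space over `E`, and let `F` be a vector bundle of rank `R ≥ 2` on `W`, given by
finitely many columns `B j` of forms of the same degree whose values at every `y` of `W` span a space
`fibre B y` of dimension `R` (`IsBundle`). Let `V = bundle W B` be the projective bundle `ℙ(F)` over
`W`. Every projective bundle over a projective variety has such a presentation.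

Let `g` be a self map of `W` which is given locally by forms (`IsMap`), and let `f` be a self map of
`V` over `g` of degree `q ≥ 1` on the fibres, given locally by bihomogeneous forms (`IsBundleMap`);
every endomorphism of `V` over `g` with `f^* O(1) = O(q) ⊗ π^* M` is of this form.

Let `p` be a point of `V` with a Zariski dense orbit, and let `β` be the arithmetic degree of `g` at
the image of `p` in `W`. If `β < q` assume that some iterate `f^[n]` is not a power map
`∑ u_i w_i ↦ ∑ u_i ^ (q ^ n) w'_i` on at least one fibre (`PowerAt`).

Then the arithmetic degree of `f` at `p` is `max q β`. Moreover, if the first dynamical degree of `g`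
is `δ`, then the first dynamical degree of `f` is `max q δ` (the dynamical degrees are defined by the
growth of the least degrees of forms giving the iterates). Hence the Kawaguchi-Silverman conjecture
for `(W, g)` implies it for `(V, f)`; and if `δ ≤ q` nothing has to be known about `(W, g)`.

Proof: reduced bases of the fibres over the ring of integers of a number field, finitely many types of
chains of fibre maps by Northcott's theorem, infinitesimal symmetries of the generic chain of fibre maps
(`Pool/Agent/PBK`); the dimension of the space of symmetries of a chain is upper semicontinuous, so if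
it is large at the generic point, it is large everywhere, and then all the fibre maps are power maps in
compatible bases (`Pool/Agent/PBL`).
-/

set_option autoImplicit false

open MvPolynomial
open scoped LinearAlgebra.Projectivization
open Pool.Agent.PBK

namespace Pool.Agent.Results.MP_0e7dfd_ag.ProjectiveBundles

theorem result {E : Type*} [Field E] [CharZero E] [Algebra.IsAlgebraic ℚ E] [IsAlgClosed E]
    {M N s R q : ℕ} (W : Set (Pr E N)) (hW : PClosed W) (hWi : PIrred W)
    (B : Fin s → Fin (M + 1) → MvPolynomial (Fin (N + 1)) E) (hB : IsBundle W B R) (hR : 2 ≤ R)
    (g : Pr E N → Pr E N) (hg : IsMap W g) (f : Pr E M × Pr E N → Pr E M × Pr E N) (hq : 1 ≤ q)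
    (hf : IsBundleMap W B g f q)
    (p : Pr E M × Pr E N) (hp : p ∈ bundle W B) (hd : Dense2 (bundle W B) f p) (β : ℝ)
    (hβ : ADeg1 g p.2 β)
    (hpow : β < q → ∃ n : ℕ, ∃ y ∈ W, ¬ PowerAt B R g^[n] f^[n] (q ^ n) y) :
    ADeg2 f p (max q β) ∧ ∀ δ : ℝ, DynDeg1 W g δ → DynDeg2 (bundle W B) f (max q δ) :=
  ⟨Pool.Agent.PBL.final_all W hW hWi B hB hR g hg f hq hf p hp hd β hβ hpow,
    fun δ hδ => Pool.Agent.PBL.dyn_all W hW hWi B hB hR g hg f hq hf δ hδ⟩

end Pool.Agent.Results.MP_0e7dfd_ag.ProjectiveBundles
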