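import Mathlib
import Pool.Agent.LLC.Curves

/-!
# Points of small arithmetic degree on smooth varieties lie on slow curves

Let `E` be an algebraically closed field which is algebraic over `ℚ`, let `X` be a smooth
irreducible closed subset of dimension `d` of a product over `i` of projective spaces over `E`, and
let `f` be a self map of `X` given locally by forms such that for every `i` the pull back by `f` of
the class `e_i` of the `i`-th `O(1)` is numerically equivalent to `∑ j, A i j e_j` (`ActsBy`). Such a
presentation exists for every endomorphism of a smooth projective variety over the algebraic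
numbers: embed `X` by very ample line bundles whose classes form a basis of `N^1(X)`.

Let `δ` be a real number, for instance the first dynamical degree of `f`; the points `x` with
`a_f(x) < δ` are called slow. There is `r < δ` such that for all `ρ > r` (for instance some
`ρ < δ`): the slow points of `X` of degree `≤ D` over `ℚ`, of logarithmic height `h(x) ≤ h` and whose
tangent space has height `≤ (d + 1) h(x) + κ` (that is `h_K(x) ≤ κ` for the canonical height, up to a
constant) are, with at most `C (1 + κ + log (2 + h))^d` exceptions, on irreducible curves `Z` in `X`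
of degree `≤ C (1 + h + κ)^C` on which, for all `m`, the iterate `f^m` is given by forms of degree
`≤ C (1 + h + κ)^C ρ^m`. If a multiple `- r₀ K` of the anticanonical class has a nonzero
section (given by forms `Gc`), then outside its zeros `κ` is a constant.

Proof: interpolation determinants of jets of high order at many orbits of slow points
(`Pool/Agent/LLX`, arithmetic side), a devissage of the filtered graph ring which finds the
obstructing subvariety (`Pool/Agent/LLX`, algebra side), and Liouville's inequality for the vector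
of the degrees of the coordinate classes on curves, computed in function fields (`Pool/Agent/LLC`).
-/

set_option autoImplicit false

open MvPolynomial
open scoped LinearAlgebra.Projectivization
open Pool.Agent.Helper90.KSC Pool.Agent.Helper63.SAND Pool.Agent.Helper63.WH Pool.Agent.PW
  Pool.Agent.LLX

namespace Pool.Agent.Results.MP_0e7dfd_ag.SlowCurves

theorem result {E : Type*} [Field E] [CharZero E] [Algebra.IsAlgebraic ℚ E] [IsAlgClosed E]
    {ι : Type*} [Fintype ι] [DecidableEq ι] {N : ι → ℕ} (X : Set (PPt E N)) (hX : ZClosed X)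
    (hXi : Irred X) (d e₀ : ℕ) (hdeg : HasDegree X d e₀) (hsm : SmoothDim X d)
    (f : PPt E N → PPt E N) (hf : Set.MapsTo f X X) (hloc : LocallyByForms X f)
    (A : Matrix ι ι ℤ) (hA : ActsBy X f A) (δ : ℝ) :
    (∃ r < δ, ∀ ρ, r < ρ → ∀ D : ℕ, ∃ C : ℕ, ∀ h κ : ℝ, 0 ≤ h → 0 ≤ κ →
      ∃ Ex : Finset (PPt E N), (Ex.card : ℝ) ≤ C * (1 + κ + Real.log (2 + h)) ^ d ∧
        ∀ (x : PPt E N) (hx : x ∈ X), x ∉ Ex → DegLE D x → absTotal x ≤ h →
          (∃ a < δ, AbsArithDegree f x a) → TanHt X d κ ⟨x, hx⟩ →
          ∃ Z ⊆ X, ZClosed Z ∧ Irred Z ∧ x ∈ Z ∧ ∃ e : ℕ, HasDegree Z 1 e ∧ 1 ≤ e ∧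
            (e : ℝ) ≤ C * (1 + h + κ) ^ C ∧
            ∀ m : ℕ, ∃ k : ℕ, (k : ℝ) ≤ C * (1 + h + κ) ^ C * ρ ^ m ∧ RepBy Z f^[m] k) ∧
    ∀ (r₀ m₁ : ℕ) (Gc : (Fin (d + 1) → SIx N) × (Fin m₁ → SIx N) → MvPolynomial (SIx N) E),
      1 ≤ r₀ → AntiCan (fun x : X => seg (x : PPt E N)) d r₀ m₁ Gc → ∃ κ : ℝ, 0 ≤ κ ∧
        ∀ x : X, (∃ I, eval (seg (x : PPt E N)) (Gc I) ≠ 0) → TanHt X d κ x :=
  ⟨Pool.Agent.LLC.curves X hX hXi d e₀ hdeg hsm f hf hloc A hA δ,
    fun r₀ m₁ Gc hr₀ hGc => anti_tanHt X d hsm r₀ m₁ hr₀ Gc hGc⟩

end Pool.Agent.Results.MP_0e7dfd_ag.SlowCurves
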