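import Mathlib
import Pool.Agent.HDG.Main4

/-!
# Automorphisms of threefolds

Let `E` be an algebraically closed field which is algebraic over `ℚ`, let `X` be a smooth
irreducible closed subset of dimension three of a product over `i` of projective spaces over `E`
such that the classes `e_i` of the `O(1)` are numerically independent on `X`, and such that a
positive multiple `- r₀ K` of the anticanonical class is effective (`Gc` are forms which give a
section, not identically zero on `X`). Let `f` be an automorphism of `X` with the inverse `g`, both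
given locally by forms, such that for every `i` the pull back by `f` of `e_i` is linearly equivalent
to `∑ j, A i j e_j`, `A` an invertible integer matrix. (Every smooth projective threefold `X` with
`h^1(O_X) = 0` has such an embedding for every automorphism: multiples of very ample classes which
form a basis of the Picard group modulo torsion.) Assume that `d_1(f) = d_1(f⁻¹) = δ > 1`.

Then `a_f(x) = δ` for all points `x` of `X` with a Zariski dense orbit.

Overview of the proof in `Pool/Agent/KST/SUMMARY.md`.
-/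

set_option autoImplicit false

open MvPolynomial
open scoped LinearAlgebra.Projectivization
open Pool.Agent.Helper90.KSC Pool.Agent.Helper63.SAND Pool.Agent.Helper63.WH Pool.Agent.PW
  Pool.Agent.LLX Pool.Agent.LLC Pool.Agent.KST Pool.Agent.HDG

namespace Pool.Agent.Results.MP_0e7dfd_ag.ThreefoldAutomorphisms

theorem result {E : Type*} [Field E] [CharZero E] [Algebra.IsAlgebraic ℚ E] [IsAlgClosed E]
    {ι : Type} [Fintype ι] [DecidableEq ι] {N : ι → ℕ} (X : Set (PPt E N)) (hX : ZClosed X)
    (hXi : Irred X) (e₀ : ℕ) (he₀ : 1 ≤ e₀) (hdeg : HasDegree X 3 e₀) (hsm : SmoothDim X 3)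
    (hni : NumInd X) (r₀ m₁ : ℕ) (hr₀ : 1 ≤ r₀)
    (Gc : (Fin 4 → SIx N) × (Fin m₁ → SIx N) → MvPolynomial (SIx N) E)
    (hGc : AntiCan (fun x : X => seg (x : PPt E N)) 3 r₀ m₁ Gc)
    (hG0 : ∃ I, ∃ x ∈ X, eval (seg x) (Gc I) ≠ 0) (f g : PPt E N → PPt E N)
    (hf : Set.MapsTo f X X) (hg : Set.MapsTo g X X) (hfg : ∀ x ∈ X, f (g x) = x)
    (hgf : ∀ x ∈ X, g (f x) = x) (hlf : LocallyByForms X f) (hlg : LocallyByForms X g)
    (A B : Matrix ι ι ℤ) (hAB : A * B = 1) (hA : LinActsBy X f A)
    (δ : ℝ) (hδ : 1 < δ) (hδf : DynDeg3 X f δ) (hδg : DynDeg3 X g δ) (x : PPt E N)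
    (hx : x ∈ X) (hd : DenseOrbit X f x) : AbsArithDegree f x δ :=
  main4 X hX hXi e₀ he₀ hdeg hsm hni f g hf hg hfg hgf hlf hlg A B hAB hA r₀ m₁ hr₀ Gc hGc hG0 δ hδ
    hδf hδg x hx hd

end Pool.Agent.Results.MP_0e7dfd_ag.ThreefoldAutomorphisms
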